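import Pool.Agent.helper76.FF2.Spec

set_option autoImplicit false

namespace Pool.Agent.FF2

open Polynomial

lemma FZX_two (F : Type*) [Field F] [CharP F 2] : (2 : F[X]) = 0 := by
  have h := CharTwo.two_eq_zero (R := F)
  have h2 : (2 : F[X]) = C (2 : F) := (C_ofNat 2).symm
  rw [h2, h, C_0]

lemma FZX_derivative_two (F : Type*) [Field F] [CharP F 2] (f : F[X]) :
    derivative (derivative f) = 0 := by
  have h := factorial_smul_hasseDeriv (R := F) 2
  have h1 := congrFun h f
  have h2 : derivative (derivative f) = derivative^[2] f := rfl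
  rw [h2, ← h1]
  rw [Nat.factorial_two, LinearMap.smul_apply, nsmul_eq_mul, Nat.cast_ofNat, FZX_two F, zero_mul]

/-- the root of the derivative -/
lemma FZX_root (F : Type*) [Field F] [Fintype F] [CharP F 2] (A P : F[X]) (hPm : P.Monic)
    (hPi : Irreducible P) (hdm : (derivative A).Monic) (h : P ^ 4 ∣ A + P ^ 2 + P ^ 3) :
    ∃ E : F[X], E.Monic ∧ derivative A = (P * E) ^ 2 ∧ ¬ P ∣ E := by
  have hfact : Fact (Nat.Prime 2) := ⟨Nat.prime_two⟩
  obtain ⟨S, hS⟩ := helper36.FF.exists_pth_root 2 (derivative A) (FZX_derivative_two F A)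
  obtain ⟨Z, hZ⟩ := h
  have h20 := FZX_two F
  have hd : derivative A = P ^ 2 * (derivative P + P ^ 2 * derivative Z) := by
    have e1 := congrArg derivative hZ
    simp only [derivative_add, derivative_mul, derivative_pow] at e1
    norm_num at e1
    rw [show (C (2 : F) : F[X]) = 2 from C_ofNat 2, show (C (3 : F) : F[X]) = 3 from C_ofNat 3,
      show (C (4 : F) : F[X]) = 4 from C_ofNat 4] at e1
    linear_combination e1 + (-derivative P * P - 2 * derivative P * P ^ 2
      + 2 * P ^ 3 * derivative P * Z) * h20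
  have h1 : P ∣ S := by
    apply hPi.prime.dvd_of_dvd_pow (n := 2)
    rw [← hS, hd]
    exact ⟨P * (derivative P + P ^ 2 * derivative Z), by ring⟩
  obtain ⟨E, hE⟩ := h1
  have h2 : E ^ 2 = derivative P + P ^ 2 * derivative Z := by
    have e1 : P ^ 2 * E ^ 2 = P ^ 2 * (derivative P + P ^ 2 * derivative Z) := by
      rw [← hd, hS, hE]
      ring
    exact mul_left_cancel₀ (pow_ne_zero 2 hPm.ne_zero) e1
  refine ⟨E, ?_, by rw [hS, hE], ?_⟩
  · have e1 : ((P * E) ^ 2).Monic := by
      rw [← hE, ← hS]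
      exact hdm
    have e2 : (P * E) ^ 2 = P ^ 2 * E ^ 2 := by ring
    rw [e2] at e1
    have e3 : (E ^ 2).Monic := (hPm.pow 2).of_mul_monic_left e1
    have e4 : E.leadingCoeff ^ 2 = 1 := by
      rw [← leadingCoeff_pow]
      exact e3
    have e5 : E.leadingCoeff = 1 := by
      have e6 : (2 : F) = 0 := CharTwo.two_eq_zero
      have e7 : (E.leadingCoeff - 1) ^ 2 = 0 := by
        linear_combination e4 + (1 - E.leadingCoeff) * e6
      exact sub_eq_zero.mp (pow_eq_zero_iff (by norm_num) |>.mp e7)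
    exact e5
  · intro hdvd
    have h3 : P ∣ derivative P := by
      have e1 : derivative P = E ^ 2 - P * (P * derivative Z) := by
        rw [h2]; ring
      rw [e1]
      exact dvd_sub (hdvd.trans (dvd_pow_self _ (by norm_num))) (dvd_mul_right _ _)
    have h5 : IsCoprime P (derivative P) := PerfectField.separable_of_irreducible hPi
    exact (hPi.coprime_iff_not_dvd.mp h5) h3

theorem FZX (F : Type*) [Field F] [Fintype F] [CharP F 2] (h1 : HDG_stmt F) : FZX_stmt F := by
  classical
  intro G M a hM hder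
  have hfact : Fact (Nat.Prime 2) := ⟨Nat.prime_two⟩
  have h20 := FZX_two F
  set D : ℕ := ∑ g ∈ G, (g.natDegree + (derivative g).natDegree) + M.natDegree + 2 with hD
  have hDg : ∀ g ∈ G, g.natDegree + (derivative g).natDegree + M.natDegree + 2 ≤ D := by
    intro g hg
    have h2 := Finset.single_le_sum
      (f := fun g : F[X] => g.natDegree + (derivative g).natDegree)
      (fun i _ => Nat.zero_le _) hg
    have h3 : g.natDegree + (derivative g).natDegree
      ≤ ∑ g ∈ G, (g.natDegree + (derivative g).natDegree) := h2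
    omega
  obtain ⟨P, hP1, hPc⟩ := helper36.FF.exists_primes G D
  have hPm : ∀ g ∈ G, (P g).Monic := fun g h => (hP1 g h).1
  have hPi : ∀ g ∈ G, Irreducible (P g) := fun g h => (hP1 g h).2.1
  have hPd : ∀ g ∈ G, D < (P g).natDegree := fun g h => (hP1 g h).2.2
  have hPM : ∀ g ∈ G, IsCoprime (P g) M := by
    intro g h
    rw [(hPi g h).coprime_iff_not_dvd]
    apply (hPm g h).not_dvd_of_natDegree_lt hM
    have := hPd g h
    omega
  obtain ⟨x1, hx1⟩ := helper36.FF.crt_finset G (fun g => P g ^ 4)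
    (fun g => g + P g ^ 2 + P g ^ 3) (by
    intro g h g' h' hne
    exact (hPc g h g' h' hne).pow)
  obtain ⟨x2, hx2a, hx2b⟩ := helper36.FF.crt_pair (A := ∏ g ∈ G, P g ^ 4) (B := M)
    (IsCoprime.prod_left fun g h => (hPM g h).pow_left) x1 a
  set T : F[X] := (∏ g ∈ G, P g ^ 4) * M with hT
  have hT0 : T ≠ 0 := by
    apply mul_ne_zero _ hM
    exact Finset.prod_ne_zero_iff.mpr (fun g h => pow_ne_zero _ (hPm g h).ne_zero)
  obtain ⟨Φ, _, hΦ⟩ := helper36.FF.monic_family T x2 hT0 (4 * (T.natDegree + D) + 5) (by omega)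
  obtain ⟨hxm, hxd, hxv⟩ := hΦ (fun _ => 0)
  set x : F[X] := Φ (fun _ => 0) with hx
  have hxM : M ∣ x - a := by
    have e1 : x - a = (x - x2) + (x2 - a) := by ring
    rw [e1]
    exact dvd_add ((dvd_mul_left _ _).trans hxv) hx2b
  have hxP : ∀ g ∈ G, P g ^ 4 ∣ (x + g) + P g ^ 2 + P g ^ 3 := by
    intro g h
    have h0 : P g ^ 4 ∣ ∏ g ∈ G, P g ^ 4 := Finset.dvd_prod_of_mem (fun g => P g ^ 4) h
    have e1 : (x + g) + P g ^ 2 + P g ^ 3 = (x - x2) + (x2 - x1)
        + (x1 - (g + P g ^ 2 + P g ^ 3)) := by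
      linear_combination (g + P g ^ 2 + P g ^ 3) * h20
    rw [e1]
    exact dvd_add (dvd_add ((h0.trans (dvd_mul_right _ _)).trans hxv) (h0.trans hx2a)) (hx1 g h)
  have hxg : ∀ g ∈ G, (x + g).Monic ∧ (x + g).natDegree = 4 * (T.natDegree + D) + 5 := by
    intro g h
    have h2 := hDg g h
    constructor
    · apply hxm.add_of_left
      apply degree_lt_degree
      rw [hxd]
      omega
    · rw [natDegree_add_eq_left_of_natDegree_lt (by rw [hxd]; omega), hxd]
  have hH : ∀ g ∈ G, (derivative (x + g)).Monic ∧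
      (hasseDeriv 2 (x + g)).natDegree + 1 < (derivative (x + g)).natDegree := by
    intro g h
    obtain ⟨m1, d1⟩ := hxg g h
    exact h1 (x + g) m1 (by rw [d1]; omega) (by rw [d1]; omega)
  have hEex : ∀ g : F[X], ∃ E : F[X], g ∈ G → E.Monic ∧ derivative (x + g) = (P g * E) ^ 2 ∧
      ¬ P g ∣ E := by
    intro g
    by_cases h : g ∈ G
    · obtain ⟨E, e1, e2, e3⟩ := FZX_root F (x + g) (P g) (hPm g h) (hPi g h) (hH g h).1 (hxP g h)
      exact ⟨E, fun _ => ⟨e1, e2, e3⟩⟩
    · exact ⟨0, fun h' => absurd h' h⟩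
  choose E hE using hEex
  refine ⟨P, E, x, hxM, fun g hg => ⟨hPm g hg, hPi g hg, ?_, hPM g hg, ?_, (hE g hg).1,
    (hE g hg).2.1, hxP g hg, (hH g hg).2, ?_⟩⟩
  · have h2 := hPd g hg
    have h3 := hDg g hg
    omega
  · intro g' hg' hne
    exact hPc g hg g' hg' hne
  · intro g' hg'
    rw [(hPi g hg).coprime_iff_not_dvd]
    by_cases heq : g = g'
    · subst heq
      exact (hE g hg).2.2
    · intro hdvd
      have h2 : P g ∣ derivative (x + g) := by
        rw [(hE g hg).2.1]
        exact (dvd_mul_right _ _).trans (dvd_pow_self _ (by norm_num))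
      have h3 : P g ∣ derivative (x + g') := by
        rw [(hE g' hg').2.1]
        exact (hdvd.mul_left _).trans (dvd_pow_self _ (by norm_num))
      have h4 : P g ∣ derivative g - derivative g' := by
        have e1 : derivative g - derivative g' = derivative (x + g) - derivative (x + g') := by
          rw [derivative_add, derivative_add]
          ring
        rw [e1]
        exact dvd_sub h2 h3
      refine (hPm g hg).not_dvd_of_natDegree_lt
        (sub_ne_zero.mpr (hder g hg g' hg' heq)) ?_ h4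
      have h5 := natDegree_sub_le (derivative g) (derivative g')
      have h6 := hDg g hg
      have h7 := hDg g' hg'
      have h8 := hPd g hg
      have h9 : max (derivative g).natDegree (derivative g').natDegree ≤ D :=
        max_le (by omega) (by omega)
      omega

end Pool.Agent.FF2
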