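import Pool.Agent.helper76.FF2.Spec

set_option autoImplicit false

namespace Pool.Agent.FF2

open Polynomial

lemma MN2_pow_four_inj (F : Type*) [Field F] [Fintype F] [CharP F 2] {a b : F[X]}
    (h : a ^ 4 = b ^ 4) : a = b := by
  have hfact : Fact (Nat.Prime 2) := ⟨Nat.prime_two⟩
  have h1 : (a ^ 2) ^ 2 = (b ^ 2) ^ 2 := by
    have e1 : (a ^ 2) ^ 2 = a ^ 4 := by ring
    have e2 : (b ^ 2) ^ 2 = b ^ 4 := by ring
    rw [e1, e2, h]
  exact helper36.FF.pth_inj 2 (helper36.FF.pth_inj 2 h1)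

lemma MN2_derivative_four (F : Type*) [Field F] [Fintype F] [CharP F 2] (w : F[X]) :
    derivative (w ^ 4) = 0 := by
  have e1 : w ^ 4 = (w ^ 2) ^ 2 := by ring
  rw [e1]
  exact helper36.FF.derivative_pth 2 (w ^ 2)

lemma MN2_dvd_derivative (F : Type*) [Field F] (π f : F[X]) (h : π ^ 2 ∣ f) :
    π ∣ derivative f := by
  obtain ⟨u, hu⟩ := h
  have e1 : f = π * (π * u) := by rw [hu]; ring
  rw [e1, derivative_mul]
  exact dvd_add ((dvd_mul_right π u).mul_left _) (dvd_mul_right _ _)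

theorem MN2 (F : Type*) [Field F] [Fintype F] [CharP F 2] (h1 : FZX_stmt F) (h2 : BAS_stmt F)
    (h3 : TRS_stmt F) (h4 : CSH_stmt F) : MN2_stmt F := by
  classical
  intro G σ hσ M a hM hder
  obtain ⟨m, -, hm⟩ := FiniteField.card F 2
  obtain ⟨P, E, x, hxM, hall⟩ := h1 G M a hM hder
  have hPm : ∀ g ∈ G, (P g).Monic := fun g h => (hall g h).1
  have hPi : ∀ g ∈ G, Irreducible (P g) := fun g h => (hall g h).2.1
  have hPd : ∀ g ∈ G, 2 ≤ (P g).natDegree := fun g h => (hall g h).2.2.1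
  have hPM : ∀ g ∈ G, IsCoprime (P g) M := fun g h => (hall g h).2.2.2.1
  have hPc : ∀ g ∈ G, ∀ g' ∈ G, g ≠ g' → IsCoprime (P g) (P g') :=
    fun g h => (hall g h).2.2.2.2.1
  have hEm : ∀ g ∈ G, (E g).Monic := fun g h => (hall g h).2.2.2.2.2.1
  have hA' : ∀ g ∈ G, derivative (x + g) = (P g * E g) ^ 2 :=
    fun g h => (hall g h).2.2.2.2.2.2.1
  have hA4 : ∀ g ∈ G, P g ^ 4 ∣ (x + g) + P g ^ 2 + P g ^ 3 :=
    fun g h => (hall g h).2.2.2.2.2.2.2.1
  have hHD : ∀ g ∈ G, (hasseDeriv 2 (x + g)).natDegree + 1 < (derivative (x + g)).natDegree :=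
    fun g h => (hall g h).2.2.2.2.2.2.2.2.1
  have hPE : ∀ g ∈ G, ∀ g' ∈ G, IsCoprime (P g) (E g') :=
    fun g h => (hall g h).2.2.2.2.2.2.2.2.2
  set Ep : F[X] := ∏ g ∈ G, E g with hEp
  have hEp0 : Ep ≠ 0 := Finset.prod_ne_zero_iff.mpr (fun g h => (hEm g h).ne_zero)
  obtain ⟨wb, hwbM, hwb0, hlarge⟩ := h2 G M x Ep hM hEp0
  set Et : F[X] := M * Ep with hEt
  have hEt0 : Et ≠ 0 := mul_ne_zero hM hEp0
  have hPEt : ∀ g ∈ G, IsCoprime (P g) Et := by
    intro g h
    apply (hPM g h).mul_right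
    apply IsCoprime.prod_right
    intro g' h'
    exact hPE g h g' h'
  have hEdvd : ∀ g ∈ G, E g ∣ Et := by
    intro g h
    exact (Finset.dvd_prod_of_mem E h).mul_left _
  have hMEt : M ∣ Et := dvd_mul_right _ _
  -- s g, B g
  have hsex : ∀ g : F[X], ∃ (s B : F[X]) (N : ℕ), g ∈ G → s.Monic ∧ x + g + wb ^ 4 = s * B ∧
      s ∣ Et ^ N ∧ IsCoprime B Et := by
    intro g
    by_cases h : g ∈ G
    · obtain ⟨s, B, N, e1, e2, e3, e4⟩ := helper36.FF.exists_part Et hEt0 (x + g + wb ^ 4)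
        (hwb0 g h)
      exact ⟨s, B, N, fun _ => ⟨e1, e2, e3, e4⟩⟩
    · exact ⟨0, 0, 0, fun h' => absurd h' h⟩
  choose s B N hsBN using hsex
  set N0 : ℕ := ∑ g ∈ G, N g with hN0
  have hsN0 : ∀ g ∈ G, s g ∣ Et ^ N0 := by
    intro g hg
    refine (hsBN g hg).2.2.1.trans (pow_dvd_pow _ ?_)
    exact Finset.single_le_sum (f := N) (fun i _ => Nat.zero_le _) hg
  set T0 : F[X] := Et ^ (2 * N0 + 2) with hT0
  set T : F[X] := T0 * ∏ g ∈ G, P g with hT
  have hT0ne : T0 ≠ 0 := pow_ne_zero _ hEt0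
  have hTne : T ≠ 0 :=
    mul_ne_zero hT0ne (Finset.prod_ne_zero_iff.mpr (fun g h => (hPm g h).ne_zero))
  -- existence of residue classes with prescribed traces
  have hgood : ∀ τ : F[X] → AlgebraicClosure F, (∀ g ∈ G, τ g = 0 ∨ τ g = 1) →
      ∃ y : F[X], ∀ w : F[X], T ∣ w - y → T0 ∣ w - wb ∧ ∀ g ∈ G, ¬ P g ∣ w ∧
        bt m (∑ b ∈ rs (P g), 1 / (aeval b w) ^ 4) = τ g := by
    intro τ hτ
    have hxex : ∀ g : F[X], ∃ y : F[X], g ∈ G → ∀ w : F[X], P g ∣ w - y →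
        ¬ P g ∣ w ∧ bt m (∑ b ∈ rs (P g), 1 / (aeval b w) ^ 4) = τ g := by
      intro g
      by_cases h : g ∈ G
      · obtain ⟨y, hy⟩ := h3 m hm (P g) (hPm g h) (hPi g h) (hPd g h) (τ g) (hτ g h)
        exact ⟨y, fun _ => hy⟩
      · exact ⟨0, fun h' => absurd h' h⟩
    choose xx hxx using hxex
    obtain ⟨y, hy⟩ := helper36.FF.crt_finset G P xx hPc
    obtain ⟨z, hza, hzb⟩ := helper36.FF.crt_pair (A := T0) (B := ∏ g ∈ G, P g)
      (IsCoprime.prod_right fun g h => ((hPEt g h).symm.pow_left)) wb y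
    refine ⟨z, fun w hw => ⟨?_, ?_⟩⟩
    · have e1 : T0 ∣ w - z := (dvd_mul_right _ _).trans hw
      have e2 : w - wb = (w - z) + (z - wb) := by ring
      rw [e2]
      exact dvd_add e1 hza
    · intro g hg
      apply hxx g hg w
      have e2 : P g ∣ ∏ g ∈ G, P g := Finset.dvd_prod_of_mem P hg
      have e3 : P g ∣ w - z := (e2.trans (dvd_mul_left _ _)).trans hw
      have e4 : w - xx g = (w - z) + (z - y) + (y - xx g) := by ring
      rw [e4]
      exact dvd_add (dvd_add e3 (e2.trans hzb)) (hy _ hg)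
  -- final
  refine ⟨T.natDegree + x.natDegree + ∑ g ∈ G, (x + g).natDegree + 1, fun d hd => ?_⟩
  have hTd : T.natDegree ≤ d := by omega
  have hfd : x.natDegree < 4 * d := by omega
  have hgd : ∀ g ∈ G, (x + g).natDegree < 4 * d := by
    intro g hg
    have e1 := Finset.single_le_sum (f := fun g : F[X] => (x + g).natDegree)
      (fun i _ => Nat.zero_le _) hg
    have e2 : (x + g).natDegree ≤ ∑ g ∈ G, (x + g).natDegree := e1
    omega
  obtain ⟨y1, hy1⟩ := hgood (fun _ => 0) (fun _ _ => Or.inl rfl)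
  obtain ⟨Φ1, _, hΦ1⟩ := helper36.FF.monic_family T y1 hTne d hTd
  obtain ⟨m1, d1, c1⟩ := hΦ1 (fun _ => 0)
  set w₁ : F[X] := Φ1 (fun _ => 0) with hw₁
  obtain ⟨t1, g1⟩ := hy1 w₁ c1
  obtain ⟨y2, hy2⟩ := hgood (fun g => if helper36.FF.lam (x + g + w₁ ^ 4) = σ g then 0 else 1) (by
    intro g hg
    by_cases h : helper36.FF.lam (x + g + w₁ ^ 4) = σ g
    · left; simp only [h, if_true]
    · right; simp only [h, if_false])
  obtain ⟨Φ2, hΦ2i, hΦ2⟩ := helper36.FF.monic_family T y2 hTne d hTd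
  refine ⟨Finset.univ.image (fun t => x + (Φ2 t) ^ 4), ?_, ?_⟩
  · rw [Finset.card_image_of_injective]
    · rw [Finset.card_univ, Fintype.card_fun, Fintype.card_fin]
      exact Nat.pow_le_pow_right Fintype.card_pos (by omega)
    · intro s t hst
      have e1 : (Φ2 s) ^ 4 = (Φ2 t) ^ 4 := add_left_cancel hst
      exact hΦ2i (MN2_pow_four_inj F e1)
  · intro f hf
    rw [Finset.mem_image] at hf
    obtain ⟨t, _, rfl⟩ := hf
    obtain ⟨m2, d2, c2⟩ := hΦ2 t
    obtain ⟨t2, g2⟩ := hy2 (Φ2 t) c2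
    set w₂ : F[X] := Φ2 t with hw₂
    have hXw : (w₂ ^ 4).Monic := m2.pow 4
    have hXwd : (w₂ ^ 4).natDegree = 4 * d := by
      rw [m2.natDegree_pow, d2]
    refine ⟨?_, ?_, ?_, ?_, ?_⟩
    · apply hXw.add_of_right
      apply degree_lt_degree
      rw [hXwd]
      exact hfd
    · rw [natDegree_add_eq_right_of_natDegree_lt]
      · exact hXwd
      · rw [hXwd]
        exact hfd
    · have e1 : M ∣ w₂ := by
        have e2 : M ∣ T0 := hMEt.trans (dvd_pow_self _ (by omega))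
        have e3 : w₂ = (w₂ - wb) + wb := by ring
        rw [e3]
        exact dvd_add (e2.trans t2) hwbM
      have e4 : x + w₂ ^ 4 - a = (x - a) + w₂ ^ 4 := by ring
      rw [e4]
      exact dvd_add hxM (e1.trans (dvd_pow_self _ (by norm_num)))
    · intro g hg
      obtain ⟨hs1, hs2, _, hs4⟩ := hsBN g hg
      obtain ⟨p1, q1⟩ := g1 g hg
      obtain ⟨p2, q2⟩ := g2 g hg
      obtain ⟨c1', c2'⟩ := h4 m hm (x + g) (P g) (E g) Et (s g) (B g) wb w₁ w₂ N0 d (hPm g hg)
        (hPi g hg) (hEm g hg) hEt0 (hEdvd g hg) hs1 hs2 (hsN0 g hg) hs4 (hA' g hg) (hA4 g hg)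
        (hPEt g hg) (hHD g hg) m1 m2 d1 d2 (hgd g hg) t1 t2 p1 p2
      have e1 : x + w₂ ^ 4 + g = x + g + w₂ ^ 4 := by ring
      rw [e1]
      by_cases h : helper36.FF.lam (x + g + w₁ ^ 4) = σ g
      · have e2 : bt m (∑ b ∈ rs (P g), 1 / (aeval b w₁) ^ 4) =
            bt m (∑ b ∈ rs (P g), 1 / (aeval b w₂) ^ 4) := by
          rw [q1, q2]
          simp only [h, if_true]
        rw [← c1' e2, h]
      · have e2 : bt m (∑ b ∈ rs (P g), 1 / (aeval b w₁) ^ 4) ≠
            bt m (∑ b ∈ rs (P g), 1 / (aeval b w₂) ^ 4) := by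
          rw [q1, q2]
          simp only [h, if_false]
          exact zero_ne_one
        have e3 := c2' e2
        rcases helper36.FF.lam_eq (x + g + w₁ ^ 4) with h5 | h5 <;>
          rcases hσ g hg with h6 | h6 <;>
          rcases helper36.FF.lam_eq (x + g + w₂ ^ 4) with h7 | h7 <;>
          rw [h5] at h e3 <;> rw [h6] at h <;> rw [h7] at e3 <;> rw [h6, h7] <;>
          first
            | rfl
            | (exact absurd rfl h)
            | (norm_num at e3)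
    · intro π hi hdeg hM' g hg hdvd
      have e1 : x + w₂ ^ 4 + g = x + g + w₂ ^ 4 := by ring
      rw [e1] at hdvd
      have e2 : π ∣ x + g + w₂ ^ 4 := (dvd_pow_self π (by norm_num)).trans hdvd
      have e3 := MN2_dvd_derivative F π _ hdvd
      rw [derivative_add, MN2_derivative_four F, add_zero, hA' g hg] at e3
      rcases hi.prime.dvd_or_dvd (hi.prime.dvd_of_dvd_pow e3) with h5 | h5
      · have h6 : Associated π (P g) := hi.associated_of_dvd (hPi g hg) h5
        have h7 : P g ∣ x + g + w₂ ^ 4 := h6.dvd_iff_dvd_left.mp e2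
        have h8 : P g ∣ x + g := by
          have e5 : P g ∣ (x + g) + P g ^ 2 + P g ^ 3 :=
            (dvd_pow_self _ (by norm_num)).trans (hA4 g hg)
          have e6 : x + g = ((x + g) + P g ^ 2 + P g ^ 3) - P g * (P g + P g ^ 2) := by ring
          rw [e6]
          exact dvd_sub e5 (dvd_mul_right _ _)
        have h9 : P g ∣ w₂ ^ 4 := by
          have e5 : w₂ ^ 4 = (x + g + w₂ ^ 4) - (x + g) := by ring
          rw [e5]
          exact dvd_sub h7 h8
        exact (g2 g hg).1 ((hPi g hg).prime.dvd_of_dvd_pow h9)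
      · have h6 : π ∣ Ep := h5.trans (Finset.dvd_prod_of_mem E hg)
        apply hlarge π hi hdeg hM' h6 g hg
        have h7 : π ∣ w₂ - wb := by
          have h8 : π ∣ Et := by
            rw [hEt]
            exact h6.mul_left _
          exact (h8.trans (dvd_pow_self _ (by omega))).trans t2
        have h8 : x + g + wb ^ 4 = (x + g + w₂ ^ 4)
            - (w₂ - wb) * ((w₂ + wb) * (w₂ ^ 2 + wb ^ 2)) := by ring
        rw [h8]
        exact dvd_sub e2 (h7.mul_right _)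

end Pool.Agent.FF2
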